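import Mathlib

open Polynomial

namespace Pool.Agent.Work.LW

/-- `k ^ m * g(u)` is integral if `k * u` is and `natDegree g ≤ m`. -/
theorem isIntegral_pow_mul_aeval {K : Type*} [Field K] (k : ℤ) (u : K)
    (hk : IsIntegral ℤ ((k : K) * u)) (g : ℤ[X]) (m : ℕ) (hm : g.natDegree ≤ m) :
    IsIntegral ℤ ((k : K) ^ m * aeval u g) := by
  rw [aeval_eq_sum_range' (n := m + 1) (by omega), Finset.mul_sum]
  refine IsIntegral.sum _ fun i hi => ?_
  have him : i ≤ m := by rw [Finset.mem_range] at hi; omega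
  have h1 : (k : K) ^ m * (g.coeff i • u ^ i) =
      ((g.coeff i * k ^ (m - i) : ℤ) : K) * ((k : K) * u) ^ i := by
    have h2 : (k : K) ^ m = (k : K) ^ (m - i) * (k : K) ^ i := by
      rw [← pow_add]; congr 1; omega
    rw [h2, zsmul_eq_mul, mul_pow]
    push_cast
    ring
  rw [h1]
  exact (isIntegral_algebraMap (R := ℤ) (A := K) (x := g.coeff i * k ^ (m - i))).mul (hk.pow i)

theorem exists_poly {K : Type*} [Field K] [CharZero K] [Algebra ℚ K] [Algebra.IsAlgebraic ℚ K]
    (s : Finset K) : ∃ f : ℤ[X], f.eval 0 ≠ 0 ∧ ∀ u ∈ s, u ≠ 0 → aeval u f = 0 := by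
  classical
  have h : ∀ u : K, ∃ q : ℤ[X], q.eval 0 ≠ 0 ∧ (u ≠ 0 → aeval u q = 0) := by
    intro u
    by_cases hu : u = 0
    · exact ⟨1, by simp, fun h => absurd hu h⟩
    · have hQ : IsAlgebraic ℚ u := Algebra.IsAlgebraic.isAlgebraic u
      have hZ : IsAlgebraic ℤ u := by
        exact (IsFractionRing.isAlgebraic_iff ℤ ℚ K).2 hQ
      obtain ⟨q, hq0, hq⟩ := hZ.exists_nonzero_coeff_and_aeval_eq_zero
        (mem_nonZeroDivisors_of_ne_zero hu)
      exact ⟨q, by rwa [← coeff_zero_eq_eval_zero], fun _ => hq⟩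
  choose q hq0 hq using h
  refine ⟨∏ u ∈ s, q u, ?_, ?_⟩
  · rw [eval_prod]
    exact Finset.prod_ne_zero_iff.2 fun u _ => hq0 u
  · intro u hu hu0
    rw [map_prod]
    exact Finset.prod_eq_zero hu (hq u hu0)

theorem exists_prime_small (A C : ℝ) (B : ℕ) :
    ∃ p : ℕ, p.Prime ∧ B < p ∧ C * (A ^ p / (p - 1).factorial) < 1 := by
  have h1 : Filter.Tendsto (fun m : ℕ => C * A * (A ^ m / m.factorial)) Filter.atTop (nhds 0) := by
    have := (FloorSemiring.tendsto_pow_div_factorial_atTop A).const_mul (C * A)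
    simpa using this
  have h2 : ∀ᶠ m : ℕ in Filter.atTop, C * A * (A ^ m / m.factorial) < 1 :=
    h1.eventually (gt_mem_nhds one_pos)
  obtain ⟨m0, hm0⟩ := Filter.eventually_atTop.1 h2
  obtain ⟨p, hp1, hp2⟩ := Nat.exists_infinite_primes (max (B + 1) (m0 + 1))
  refine ⟨p, hp2, by have := le_max_left (B + 1) (m0 + 1); omega, ?_⟩
  have hp : m0 + 1 ≤ p := le_trans (le_max_right _ _) hp1
  have h3 := hm0 (p - 1) (by omega)
  have h4 : C * (A ^ p / (p - 1).factorial) = C * A * (A ^ (p - 1) / (p - 1).factorial) := by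
    have : A ^ p = A * A ^ (p - 1) := by
      rw [← pow_succ']; congr 1; omega
    rw [this]; ring
  rw [h4]; exact h3

theorem final_step {K : Type*} [Field K] [CharZero K] [Algebra ℚ K] [Algebra.IsAlgebraic ℚ K]
    (hG : ∀ x : K, (∀ σ : K ≃ₐ[ℚ] K, σ x = x) → ∃ q : ℚ, algebraMap ℚ K q = x)
    (φ : K →+* ℂ) (W : K →₀ ℤ) (hinv : ∀ (σ : K ≃ₐ[ℚ] K) (u : K), W (σ u) = W u)
    (h0 : W 0 ≠ 0) :
    W.sum (fun u w => (w : ℂ) * Complex.exp (φ u)) ≠ 0 := by
  classical
  intro hsum
  obtain ⟨f, hf0, hfu⟩ := exists_poly (K := K) W.support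
  have hfne : f ≠ 0 := by
    rintro rfl; simp at hf0
  obtain ⟨c, hc⟩ := LindemannWeierstrass.exp_polynomial_approx f hf0
  set k : ℤ := f.leadingCoeff with hk
  have hk0 : k ≠ 0 := leadingCoeff_ne_zero.2 hfne
  set d : ℕ := f.natDegree with hd
  set C0 : ℝ := ∑ u ∈ W.support, |(W u : ℝ)| with hC0
  obtain ⟨p, hp, hpB, hpsmall⟩ := exists_prime_small (|(k : ℝ)| ^ d * |c|) C0
    (max (eval 0 f).natAbs (max k.natAbs (W 0).natAbs))
  have hp1 : (eval 0 f).natAbs < p := lt_of_le_of_lt (le_max_left _ _) hpB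
  have hp2 : k.natAbs < p :=
    lt_of_le_of_lt (le_trans (le_max_left _ _) (le_max_right _ _)) hpB
  have hp3 : (W 0).natAbs < p :=
    lt_of_le_of_lt (le_trans (le_max_right _ _) (le_max_right _ _)) hpB
  obtain ⟨n, hn, gp, hgp, happrox⟩ := hc p hp1 hp
  set M : ℕ := p * d with hM
  have hgpM : gp.natDegree ≤ M := le_trans hgp (Nat.sub_le _ _)
  -- the algebraic integer
  set T : K := W.sum (fun u w => if u = 0 then 0 else (w : K) * ((k : K) ^ M * aeval u gp))
    with hT
  have hTint : IsIntegral ℤ T := by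
    rw [hT, Finsupp.sum]
    refine IsIntegral.sum _ fun u hu => ?_
    split_ifs with hu0
    · exact isIntegral_zero
    · refine (isIntegral_algebraMap (R := ℤ) (A := K) (x := W u)).mul ?_
      apply isIntegral_pow_mul_aeval _ _ _ _ _ hgpM
      have := isIntegral_leadingCoeff_smul f u (hfu u hu hu0)
      rwa [zsmul_eq_mul] at this
  have hTfix : ∀ σ : K ≃ₐ[ℚ] K, σ T = T := by
    intro σ
    have hWσ : W.equivMapDomain σ.toEquiv = W := by
      ext u
      rw [Finsupp.equivMapDomain_apply]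
      have := hinv σ (σ.symm u)
      rw [σ.apply_symm_apply] at this
      exact this.symm
    have h1 : σ T = W.sum (fun u w =>
        if σ u = 0 then 0 else (w : K) * ((k : K) ^ M * aeval (σ u) gp)) := by
      rw [hT, Finsupp.sum, map_sum, Finsupp.sum]
      refine Finset.sum_congr rfl fun u _ => ?_
      by_cases hu0 : u = 0
      · simp [hu0]
      · have : σ u ≠ 0 := fun h => hu0 (by simpa using h)
        rw [if_neg hu0, if_neg this, map_mul, map_mul, map_pow, map_intCast, map_intCast]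
        congr 2
        have h2 := aeval_algHom_apply (σ.toAlgHom.restrictScalars ℤ) u gp
        simpa using h2.symm
    rw [h1]
    have h3 : W.sum (fun u w =>
        if σ u = 0 then 0 else (w : K) * ((k : K) ^ M * aeval (σ u) gp)) =
        (W.equivMapDomain σ.toEquiv).sum
          (fun u w => if u = 0 then 0 else (w : K) * ((k : K) ^ M * aeval u gp)) := by
      rw [Finsupp.sum_equivMapDomain]
      rfl
    rw [h3, hWσ]
  obtain ⟨z, hz⟩ : ∃ z : ℤ, (z : K) = T := by
    obtain ⟨r, hr⟩ := hG T hTfix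
    have hrint : IsIntegral ℤ r := by
      rw [← hr] at hTint
      exact (isIntegral_algebraMap_iff (algebraMap ℚ K).injective).1 hTint
    obtain ⟨z, hz⟩ := IsIntegrallyClosed.isIntegral_iff.1 hrint
    refine ⟨z, ?_⟩
    rw [← hr, ← hz]
    simp
  -- evaluation in the complex numbers
  have hmain : ((k ^ M * n * W 0 + p * z : ℤ) : ℂ) =
      - W.sum (fun u w => if u = 0 then 0 else
        (w : ℂ) * (k : ℂ) ^ M * (n • Complex.exp (φ u) - p • aeval (φ u) gp)) := by
    have e1 : (k : ℂ) ^ M * n * W.sum (fun u w => (w : ℂ) * Complex.exp (φ u)) = 0 := by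
      rw [hsum, mul_zero]
    have e2 : (W.sum (fun u w => (w : ℂ) * Complex.exp (φ u))) =
        (W 0 : ℂ) + W.sum (fun u w => if u = 0 then 0 else (w : ℂ) * Complex.exp (φ u)) := by
      have h0m : (0 : K) ∈ W.support := Finsupp.mem_support_iff.2 h0
      rw [Finsupp.sum, Finsupp.sum, ← Finset.add_sum_erase _ _ h0m, ← Finset.add_sum_erase _ _ h0m]
      simp only [map_zero, Complex.exp_zero, mul_one, if_true, zero_add]
      congr 1
      refine Finset.sum_congr rfl fun u hu => ?_
      rw [if_neg (Finset.ne_of_mem_erase hu)]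
    have e3 : φ T = W.sum (fun u w =>
        if u = 0 then 0 else (w : ℂ) * ((k : ℂ) ^ M * aeval (φ u) gp)) := by
      rw [hT, Finsupp.sum, map_sum, Finsupp.sum]
      refine Finset.sum_congr rfl fun u _ => ?_
      split_ifs with hu0
      · simp
      · rw [map_mul, map_mul, map_pow, map_intCast, map_intCast]
        congr 2
        have h2 := aeval_algHom_apply φ.toIntAlgHom u gp
        simpa using h2.symm
    have e4 : (z : ℂ) = φ T := by rw [← hz, map_intCast]
    rw [e2] at e1
    push_cast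
    rw [e4, e3]
    have e5 : W.sum (fun u w => if u = 0 then 0 else
        (w : ℂ) * (k : ℂ) ^ M * (n • Complex.exp (φ u) - p • aeval (φ u) gp)) =
        (k : ℂ) ^ M * n * W.sum (fun u w => if u = 0 then 0 else (w : ℂ) * Complex.exp (φ u)) -
        p * W.sum (fun u w =>
        if u = 0 then 0 else (w : ℂ) * ((k : ℂ) ^ M * aeval (φ u) gp)) := by
      simp only [Finsupp.sum]
      rw [Finset.mul_sum, Finset.mul_sum, ← Finset.sum_sub_distrib]
      refine Finset.sum_congr rfl fun u _ => ?_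
      split_ifs with hu0
      · simp
      · rw [zsmul_eq_mul, nsmul_eq_mul]; ring
    rw [e5]
    linear_combination e1
  have hbound : |((k ^ M * n * W 0 + p * z : ℤ) : ℝ)| < 1 := by
    have h1 : |((k ^ M * n * W 0 + p * z : ℤ) : ℝ)| = ‖((k ^ M * n * W 0 + p * z : ℤ) : ℂ)‖ := by
      rw [Complex.norm_intCast]
    rw [h1, hmain, norm_neg]
    refine lt_of_le_of_lt ?_ hpsmall
    rw [Finsupp.sum]
    refine le_trans (norm_sum_le _ _) ?_
    rw [hC0, Finset.sum_mul]
    refine Finset.sum_le_sum fun u hu => ?_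
    have hpos : 0 ≤ |(W u : ℝ)| * ((|(k : ℝ)| ^ d * |c|) ^ p / (p - 1).factorial) := by positivity
    split_ifs with hu0
    · simpa using hpos
    · rw [norm_mul, norm_mul, norm_pow, Complex.norm_intCast, Complex.norm_intCast, mul_assoc]
      refine mul_le_mul_of_nonneg_left ?_ (abs_nonneg _)
      have hroot : φ u ∈ f.aroots ℂ := by
        rw [mem_aroots]
        refine ⟨hfne, ?_⟩
        have h2 := aeval_algHom_apply φ.toIntAlgHom u f
        have h3 : aeval (φ u) f = φ (aeval u f) := by simpa using h2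
        rw [h3, hfu u hu hu0, map_zero]
      have h4 := happrox hroot
      have h5 : c ^ p ≤ |c| ^ p := by
        rw [← abs_pow]; exact le_abs_self _
      have h6 : ‖n • Complex.exp (φ u) - p • aeval (φ u) gp‖ ≤ |c| ^ p / (p - 1).factorial :=
        le_trans h4 (div_le_div_of_nonneg_right h5 (by positivity))
      calc |(k : ℝ)| ^ M * ‖n • Complex.exp (φ u) - p • aeval (φ u) gp‖
          ≤ |(k : ℝ)| ^ M * (|c| ^ p / (p - 1).factorial) :=
            mul_le_mul_of_nonneg_left h6 (by positivity)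
        _ = (|(k : ℝ)| ^ d * |c|) ^ p / (p - 1).factorial := by
            rw [mul_pow, ← pow_mul, hM, mul_comm p d]; ring
  have hzero : k ^ M * n * W 0 + p * z = 0 := by
    have h1 : |(k ^ M * n * W 0 + p * z : ℤ)| < 1 := by exact_mod_cast hbound
    exact Int.abs_lt_one_iff.1 h1
  have hdvd : (p : ℤ) ∣ k ^ M * n * W 0 := by
    refine ⟨-z, ?_⟩
    linear_combination hzero
  have hpZ : Prime (p : ℤ) := Nat.prime_iff_prime_int.1 hp
  rcases hpZ.dvd_or_dvd hdvd with h | h
  · rcases hpZ.dvd_or_dvd h with h | h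
    · have h1 := hpZ.dvd_of_dvd_pow h
      have := Nat.le_of_dvd (Int.natAbs_pos.2 hk0) (Int.natCast_dvd.1 h1)
      omega
    · exact hn h
  · have := Nat.le_of_dvd (Int.natAbs_pos.2 h0) (Int.natCast_dvd.1 h)
    omega

end Pool.Agent.Work.LW
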