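import Mathlib
import Pool.Agent.Work.LW.Final



namespace Pool.Agent.Work.LW

open AddMonoidAlgebra

variable {K : Type*} [Field K]

/-- the additive-to-multiplicative map `u ↦ exp (φ u)` -/
noncomputable def expHom (φ : K →+* ℂ) : Multiplicative K →* ℂ where
  toFun u := Complex.exp (φ u.toAdd)
  map_one' := by simp
  map_mul' x y := by simp [Complex.exp_add]

/-- the evaluation `∑ v [u] ↦ ∑ φ v * exp (φ u)` -/
noncomputable def ev (φ : K →+* ℂ) : AddMonoidAlgebra K K →+* ℂ :=
  AddMonoidAlgebra.liftNCRingHom φ (expHom φ) (fun _ _ => Commute.all _ _)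

theorem ev_apply (φ : K →+* ℂ) (x : AddMonoidAlgebra K K) :
    ev φ x = x.coeff.sum (fun u v => φ v * Complex.exp (φ u)) := by
  induction x using AddMonoidAlgebra.induction_linear with
  | zero => simp
  | add f g hf hg =>
    rw [map_add, hf, hg, AddMonoidAlgebra.coeff_add, Finsupp.sum_add_index']
    · intro a; simp
    · intro a b c; simp [add_mul]
  | single a b =>
    rw [ev, AddMonoidAlgebra.liftNCRingHom_single, AddMonoidAlgebra.coeff_single,
      Finsupp.sum_single_index]
    · rfl
    · simp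

theorem coeff_mapDomain_equiv (e : K ≃+ K) (x : AddMonoidAlgebra K K) (u : K) :
    (mapDomainRingHom K (e : K →+ K) x).coeff (e u) = x.coeff u := by
  induction x using AddMonoidAlgebra.induction_linear with
  | zero => simp
  | add f g hf hg => rw [map_add, coeff_add, coeff_add, Finsupp.add_apply, Finsupp.add_apply, hf, hg]
  | single a b =>
    classical
    simp only [mapDomainRingHom_apply, mapDomain_single, coeff_single]
    rw [Finsupp.single_apply, Finsupp.single_apply]
    simp

theorem mapRingHom_injective [Algebra ℚ K] (σ : K ≃ₐ[ℚ] K) :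
    Function.Injective (mapRingHom K (σ : K →+* K) : AddMonoidAlgebra K K →+* _) := by
  intro x y h
  ext u
  have := congrArg (fun z => z.coeff u) h
  simpa using this

theorem mapDomain_injective (e : K ≃+ K) :
    Function.Injective (mapDomainRingHom K (e : K →+ K) : AddMonoidAlgebra K K →+* _) := by
  intro x y h
  ext u
  rw [← coeff_mapDomain_equiv e x u, ← coeff_mapDomain_equiv e y u, h]

variable [CharZero K] [Algebra ℚ K]

theorem reduce [FiniteDimensional ℚ K] [IsGalois ℚ K] (φ : K →+* ℂ) (F : AddMonoidAlgebra K K)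
    (hF : F ≠ 0) : ev φ F ≠ 0 := by
  classical
  intro hev
  -- first product: rational coefficients
  set F1 : AddMonoidAlgebra K K := ∏ σ : K ≃ₐ[ℚ] K, mapRingHom K (σ : K →+* K) F with hF1
  have hF1ne : F1 ≠ 0 := by
    rw [hF1, Finset.prod_ne_zero_iff]
    intro σ _ h
    exact hF (mapRingHom_injective σ (by rw [h, map_zero]))
  have hF1ev : ev φ F1 = 0 := by
    rw [hF1, map_prod]
    refine Finset.prod_eq_zero (Finset.mem_univ (1 : K ≃ₐ[ℚ] K)) ?_
    have : mapRingHom K ((1 : K ≃ₐ[ℚ] K) : K →+* K) F = F := by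
      ext u; simp
    rw [this, hev]
  have hF1fix : ∀ τ : K ≃ₐ[ℚ] K, mapRingHom K (τ : K →+* K) F1 = F1 := by
    intro τ
    rw [hF1, map_prod]
    refine Fintype.prod_bijective (fun σ => τ * σ) (Group.mulLeft_bijective τ) _ _ fun σ => ?_
    ext u; simp
  -- second product: Galois invariant exponents
  set F2 : AddMonoidAlgebra K K :=
    ∏ σ : K ≃ₐ[ℚ] K, mapDomainRingHom K ((σ : K ≃+ K) : K →+ K) F1 with hF2
  have hF2ne : F2 ≠ 0 := by
    rw [hF2, Finset.prod_ne_zero_iff]
    intro σ _ h
    exact hF1ne (mapDomain_injective (σ : K ≃+ K) (by rw [h, map_zero]))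
  have hF2ev : ev φ F2 = 0 := by
    rw [hF2, map_prod]
    refine Finset.prod_eq_zero (Finset.mem_univ (1 : K ≃ₐ[ℚ] K)) ?_
    have : mapDomainRingHom K (((1 : K ≃ₐ[ℚ] K) : K ≃+ K) : K →+ K) F1 = F1 := by
      ext u
      exact coeff_mapDomain_equiv ((1 : K ≃ₐ[ℚ] K) : K ≃+ K) F1 u
    rw [this, hF1ev]
  have hcomm : ∀ (τ σ : K ≃ₐ[ℚ] K) (x : AddMonoidAlgebra K K),
      mapRingHom K (τ : K →+* K) (mapDomainRingHom K ((σ : K ≃+ K) : K →+ K) x) =
      mapDomainRingHom K ((σ : K ≃+ K) : K →+ K) (mapRingHom K (τ : K →+* K) x) := by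
    intro τ σ x
    exact congrArg (fun f => f x)
      (mapRingHom_comp_mapDomainRingHom (τ : K →+* K) ((σ : K ≃+ K) : K →+ K))
  have hF2fix : ∀ τ : K ≃ₐ[ℚ] K, mapRingHom K (τ : K →+* K) F2 = F2 := by
    intro τ
    rw [hF2, map_prod]
    refine Finset.prod_congr rfl fun σ _ => ?_
    rw [hcomm, hF1fix]
  have hF2inv : ∀ τ : K ≃ₐ[ℚ] K, mapDomainRingHom K ((τ : K ≃+ K) : K →+ K) F2 = F2 := by
    intro τ
    rw [hF2, map_prod]
    refine Fintype.prod_bijective (fun σ => τ * σ) (Group.mulLeft_bijective τ) _ _ fun σ => ?_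
    have : (((τ * σ : K ≃ₐ[ℚ] K) : K ≃+ K) : K →+ K) =
        ((τ : K ≃+ K) : K →+ K).comp ((σ : K ≃+ K) : K →+ K) := by
      ext u; rfl
    rw [this, mapDomainRingHom_comp]
    rfl
  -- the reflected element
  set R : AddMonoidAlgebra K K →+* AddMonoidAlgebra K K :=
    mapDomainRingHom K ((AddEquiv.neg K : K ≃+ K) : K →+ K) with hR
  have hRcoeff : ∀ (x : AddMonoidAlgebra K K) (u : K), (R x).coeff (-u) = x.coeff u := by
    intro x u
    exact coeff_mapDomain_equiv (AddEquiv.neg K) x u
  -- coefficients are rational and Galois invariant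
  have hq : ∀ u : K, ∃ q : ℚ, algebraMap ℚ K q = F2.coeff u := by
    intro u
    have : F2.coeff u ∈ Set.range (algebraMap ℚ K) := by
      rw [IsGalois.mem_range_algebraMap_iff_fixed]
      intro τ
      have := congrArg (fun z => z.coeff u) (hF2fix τ)
      simpa using this
    exact this
  have hinv2 : ∀ (τ : K ≃ₐ[ℚ] K) (u : K), F2.coeff (τ u) = F2.coeff u := by
    intro τ u
    have := coeff_mapDomain_equiv (τ : K ≃+ K) F2 u
    rw [hF2inv τ] at this
    exact this
  choose q hqF using hq
  set F3 : AddMonoidAlgebra K K := F2 * R F2 with hF3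
  have hF3ev : ev φ F3 = 0 := by rw [hF3, map_mul, hF2ev, zero_mul]
  have hF3fix : ∀ τ : K ≃ₐ[ℚ] K, mapRingHom K (τ : K →+* K) F3 = F3 := by
    intro τ
    rw [hF3, map_mul, hF2fix]
    congr 1
    have : mapRingHom K (τ : K →+* K) (R F2) = R (mapRingHom K (τ : K →+* K) F2) :=
      congrArg (fun f => f F2)
        (mapRingHom_comp_mapDomainRingHom (τ : K →+* K) ((AddEquiv.neg K : K ≃+ K) : K →+ K))
    rw [this, hF2fix]
  have hF3inv : ∀ τ : K ≃ₐ[ℚ] K, mapDomainRingHom K ((τ : K ≃+ K) : K →+ K) F3 = F3 := by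
    intro τ
    rw [hF3, map_mul, hF2inv]
    congr 1
    have h1 : mapDomainRingHom K ((τ : K ≃+ K) : K →+ K) (R F2) =
        R (mapDomainRingHom K ((τ : K ≃+ K) : K →+ K) F2) := by
      rw [hR, ← RingHom.comp_apply, ← RingHom.comp_apply, ← mapDomainRingHom_comp,
        ← mapDomainRingHom_comp]
      congr 2
      ext u
      simp
    rw [h1, hF2inv]
  have hF3zero : F3.coeff 0 = algebraMap ℚ K (∑ u ∈ F2.coeff.support, q u ^ 2) := by
    have h1 : F3.coeff 0 = F2.coeff.sum fun u v => v * (R F2).coeff (-u + 0) := by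
      rw [hF3, AddMonoidAlgebra.coeff_mul_apply_left]
    rw [h1, Finsupp.sum, map_sum]
    refine Finset.sum_congr rfl fun u _ => ?_
    rw [add_zero, hRcoeff, map_pow, hqF]
    ring
  have hF3zero_ne : F3.coeff 0 ≠ 0 := by
    rw [hF3zero]
    intro h
    have h1 : ∑ u ∈ F2.coeff.support, q u ^ 2 = 0 := by
      have := (map_eq_zero (algebraMap ℚ K)).1 h
      exact this
    have h2 := (Finset.sum_eq_zero_iff_of_nonneg (fun u _ => sq_nonneg (q u))).1 h1
    apply hF2ne
    ext u
    by_contra hu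
    have hmem : u ∈ F2.coeff.support := Finsupp.mem_support_iff.2 (by simpa using hu)
    have := h2 u hmem
    rw [pow_eq_zero_iff two_ne_zero] at this
    apply hu
    rw [← hqF, this]; simp
  have hinv3 : ∀ (τ : K ≃ₐ[ℚ] K) (u : K), F3.coeff (τ u) = F3.coeff u := by
    intro τ u
    have := coeff_mapDomain_equiv (τ : K ≃+ K) F3 u
    rw [hF3inv τ] at this
    exact this
  have hr : ∀ u : K, ∃ r : ℚ, algebraMap ℚ K r = F3.coeff u := by
    intro u
    have : F3.coeff u ∈ Set.range (algebraMap ℚ K) := by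
      rw [IsGalois.mem_range_algebraMap_iff_fixed]
      intro τ
      have := congrArg (fun z => z.coeff u) (hF3fix τ)
      simpa using this
    exact this
  choose r hrF using hr
  -- common denominator
  set N : ℕ := ∏ u ∈ F3.coeff.support, (r u).den with hN
  have hN0 : N ≠ 0 := Finset.prod_ne_zero_iff.2 fun u _ => (r u).den_nz
  have hint : ∀ u : K, ∃ w : ℤ, (w : K) = (N : K) * F3.coeff u := by
    intro u
    by_cases hu : u ∈ F3.coeff.support
    · have hd : (r u).den ∣ N := Finset.dvd_prod_of_mem _ hu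
      obtain ⟨m, hm⟩ := hd
      refine ⟨m * (r u).num, ?_⟩
      rw [← hrF, hm]
      have h1 : ((r u).den : ℚ) * r u = (r u).num := by
        rw [mul_comm]; exact Rat.mul_den_eq_num (r u)
      have h2 := congrArg (algebraMap ℚ K) h1
      rw [map_mul] at h2
      simp only [map_natCast, map_intCast] at h2
      push_cast
      rw [← h2]; ring
    · refine ⟨0, ?_⟩
      rw [Finsupp.notMem_support_iff.1 hu]; simp
  choose w hw using hint
  have hwsupp : ∀ u : K, w u ≠ 0 ↔ u ∈ F3.coeff.support := by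
    intro u
    rw [Finsupp.mem_support_iff]
    constructor
    · intro h1 h2
      apply h1
      have := hw u
      rw [h2, mul_zero] at this
      exact_mod_cast this
    · intro h1 h2
      have := hw u
      rw [h2, Int.cast_zero] at this
      rcases mul_eq_zero.1 this.symm with h3 | h3
      · exact hN0 (by exact_mod_cast h3)
      · exact h1 h3
  set W : K →₀ ℤ := Finsupp.onFinset F3.coeff.support w (fun u hu => (hwsupp u).1 hu) with hW
  have hWapp : ∀ u, W u = w u := fun u => rfl
  have hWinv : ∀ (σ : K ≃ₐ[ℚ] K) (u : K), W (σ u) = W u := by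
    intro σ u
    have h1 := hw (σ u)
    rw [hinv3, ← hw u] at h1
    rw [hWapp, hWapp]
    exact_mod_cast h1
  have hW0 : W 0 ≠ 0 := by
    rw [hWapp, hwsupp, Finsupp.mem_support_iff]
    exact hF3zero_ne
  refine final_step (fun x hx => ?_) φ W hWinv hW0 ?_
  · exact (IsGalois.mem_range_algebraMap_iff_fixed x).2 hx
  · have h1 : W.sum (fun u w => (w : ℂ) * Complex.exp (φ u)) = (N : ℂ) * ev φ F3 := by
      have hsub : W.support ⊆ F3.coeff.support := fun u hu =>
        (hwsupp u).1 (Finsupp.mem_support_iff.1 hu)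
      rw [ev_apply, Finsupp.sum_of_support_subset W hsub _ (fun u _ => by simp), Finsupp.sum,
        Finset.mul_sum]
      refine Finset.sum_congr rfl fun u _ => ?_
      have h2 : ((w u : ℤ) : ℂ) = (N : ℂ) * φ (F3.coeff u) := by
        have := congrArg φ (hw u)
        simpa using this
      rw [hWapp, h2]; ring
    rw [h1, hF3ev, mul_zero]

end Pool.Agent.Work.LW
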