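import Mathlib
import Pool.Agent.Work.LW.Reduce

/-!
# The Lindemann-Weierstrass theorem

* `linear_form`: if `u i` are distinct algebraic numbers and `v i` are algebraic numbers with
  `∑ v i * exp (u i) = 0` then all `v i` vanish.
* `algebraicIndependent_exp`: if `u i` are algebraic and `ℚ`-linearly independent, then the
  `exp (u i)` are algebraically independent over `ℚ`; `algebraicIndependent_exp'` over any field
  of algebraic numbers.
* `transcendental_exp`, `transcendental_pi`.
-/

namespace Pool.Agent.Work.LW

open AddMonoidAlgebra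

/-- a finite Galois extension inside an algebraically closed field containing
a given finite set of algebraic elements -/
theorem exists_field_aux {F E : Type*} [Field F] [CharZero F] [Field E] [Algebra F E]
    [IsAlgClosed E] (s : Finset E) (hs : ∀ x ∈ s, IsAlgebraic F x) :
    ∃ K : IntermediateField F E, FiniteDimensional F K ∧ IsGalois F K ∧ ∀ x ∈ s, x ∈ K := by
  classical
  set P : Polynomial F := ∏ x ∈ s, minpoly F x with hP
  have hP0 : P ≠ 0 :=
    Finset.prod_ne_zero_iff.2 fun x hx => minpoly.ne_zero (hs x hx).isIntegral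
  have hsplit : (P.map (algebraMap F E)).Splits := IsAlgClosed.splits _
  have hSF := IntermediateField.adjoin_rootSet_isSplittingField hsplit
  refine ⟨IntermediateField.adjoin F (P.rootSet E), ?_, ?_, ?_⟩
  · exact Polynomial.IsSplittingField.finiteDimensional _ P
  · have h0 := Polynomial.IsSplittingField.finiteDimensional
      (IntermediateField.adjoin F (P.rootSet E)) P
    have h1 : Normal F (IntermediateField.adjoin F (P.rootSet E)) :=
      Normal.of_isSplittingField P
    exact ⟨⟩
  · intro x hx
    apply IntermediateField.subset_adjoin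
    rw [Polynomial.mem_rootSet]
    refine ⟨hP0, ?_⟩
    rw [hP, map_prod]
    exact Finset.prod_eq_zero hx (minpoly.aeval F x)

/-- a number field, Galois over the rationals, whose image in the complex numbers contains
a given finite set of algebraic numbers -/
theorem exists_field (s : Finset ℂ) (hs : ∀ x ∈ s, IsAlgebraic ℚ x) :
    ∃ (K : Type) (_ : Field K) (_ : CharZero K) (_ : Algebra ℚ K) (φ : K →+* ℂ),
      FiniteDimensional ℚ K ∧ IsGalois ℚ K ∧ ∀ x ∈ s, ∃ y, φ y = x := by
  obtain ⟨K, h1, h2, h3⟩ := exists_field_aux s hs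
  exact ⟨K, inferInstance, inferInstance, K.algebra', K.val, h1, h2,
    fun x hx => ⟨⟨x, h3 x hx⟩, rfl⟩⟩

/-- **Lindemann-Weierstrass theorem**, Baker's form. -/
theorem linear_form {ι : Type*} [Fintype ι] (u v : ι → ℂ) (hu : ∀ i, IsAlgebraic ℚ (u i))
    (hv : ∀ i, IsAlgebraic ℚ (v i)) (hinj : Function.Injective u)
    (h : ∑ i, v i * Complex.exp (u i) = 0) : ∀ i, v i = 0 := by
  classical
  obtain ⟨K, _, _, _, φ, hfd, hgal, hK⟩ :=
    exists_field (Finset.univ.image u ∪ Finset.univ.image v) (by
    intro x hx
    rw [Finset.mem_union, Finset.mem_image, Finset.mem_image] at hx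
    rcases hx with ⟨i, -, rfl⟩ | ⟨i, -, rfl⟩
    · exact hu i
    · exact hv i)
  have hKu : ∀ i, ∃ y, φ y = u i := fun i => hK _ (by simp)
  have hKv : ∀ i, ∃ y, φ y = v i := fun i => hK _ (by simp)
  choose u' hu' using hKu
  choose v' hv' using hKv
  have hinj' : Function.Injective u' := by
    intro i j hij
    apply hinj
    rw [← hu', ← hu', hij]
  set F : AddMonoidAlgebra K K := ∑ i, single (u' i) (v' i) with hF
  have hev : ev φ F = 0 := by
    rw [hF, map_sum, ← h]
    refine Finset.sum_congr rfl fun i _ => ?_
    rw [ev, liftNCRingHom_single, hv']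
    congr 1
    change Complex.exp (φ (u' i)) = _
    rw [hu']
  have hF0 : F = 0 := by
    by_contra hne
    exact reduce φ F hne hev
  intro i
  have h1 : F.coeff (u' i) = v' i := by
    rw [hF, AddMonoidAlgebra.coeff_sum, Finsupp.finsetSum_apply]
    rw [Finset.sum_eq_single i]
    · simp
    · intro j _ hj
      rw [coeff_single, Finsupp.single_apply, if_neg]
      intro heq
      exact hj (hinj' heq)
    · intro hi; exact absurd (Finset.mem_univ i) hi
  rw [hF0] at h1
  rw [← hv', ← h1]
  simp

/-- **Lindemann-Weierstrass theorem**: exponentials of `ℚ`-linearly independent algebraic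
numbers are algebraically independent over every field of algebraic numbers. -/
theorem algebraicIndependent_exp' {ι : Type*} (L : Type*) [Field L] [Algebra L ℂ]
    (hL : ∀ x : L, IsAlgebraic ℚ (algebraMap L ℂ x)) (u : ι → ℂ)
    (hu : ∀ i, IsAlgebraic ℚ (u i)) (hlin : LinearIndependent ℚ u) :
    AlgebraicIndependent L (fun i => Complex.exp (u i)) := by
  classical
  rw [algebraicIndependent_iff]
  intro p hp
  -- exponents
  set e : (ι →₀ ℕ) → ℂ := fun m => m.sum (fun i k => (k : ℂ) * u i) with he
  have he_inj : Function.Injective e := by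
    intro m m' hmm
    have h1 : Finsupp.linearCombination ℚ u (m.mapRange (Nat.cast : ℕ → ℚ) Nat.cast_zero) =
        Finsupp.linearCombination ℚ u (m'.mapRange (Nat.cast : ℕ → ℚ) Nat.cast_zero) := by
      rw [Finsupp.linearCombination_apply, Finsupp.linearCombination_apply,
        Finsupp.sum_mapRange_index (by simp), Finsupp.sum_mapRange_index (by simp)]
      have : ∀ m : ι →₀ ℕ, (m.sum fun i k => ((k : ℚ) • u i : ℂ)) = e m := by
        intro m
        simp only [he, Finsupp.sum]
        refine Finset.sum_congr rfl fun i _ => ?_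
        rw [Algebra.smul_def]; simp
      rw [this, this, hmm]
    have h2 := hlin h1
    ext i
    have h3 := DFunLike.congr_fun h2 i
    simpa using h3
  have he_alg : ∀ m, IsAlgebraic ℚ (e m) := by
    intro m
    simp only [he, Finsupp.sum]
    have : ∑ i ∈ m.support, (m i : ℂ) * u i ∈ algebraicClosure ℚ ℂ :=
      sum_mem fun i _ => mem_algebraicClosure_iff.2
        ((isAlgebraic_natCast (R := ℚ) (A := ℂ) (m i)).mul (hu i))
    exact mem_algebraicClosure_iff.1 this
  have hexp : ∀ m : ι →₀ ℕ, (m.prod fun i k => Complex.exp (u i) ^ k) = Complex.exp (e m) := by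
    intro m
    simp only [he, Finsupp.sum, Finsupp.prod, Complex.exp_sum]
    refine Finset.prod_congr rfl fun i _ => ?_
    rw [← Complex.exp_nat_mul]
  have hsum : ∑ m : p.support, algebraMap L ℂ (p.coeff m.1) * Complex.exp (e m.1) = 0 := by
    rw [Finset.sum_coe_sort p.support
      (fun m => algebraMap L ℂ (p.coeff m) * Complex.exp (e m)), ← hp]
    rw [MvPolynomial.aeval_def, MvPolynomial.eval₂_eq]
    refine Finset.sum_congr rfl fun m _ => ?_
    rw [← hexp]; rfl
  have hzero := linear_form (fun m : p.support => e m.1)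
    (fun m : p.support => algebraMap L ℂ (p.coeff m.1)) (fun m => he_alg m.1)
    (fun m => hL _) (fun m m' h => Subtype.ext (he_inj h)) hsum
  ext m
  rw [MvPolynomial.coeff_zero]
  by_contra hm
  have h1 := hzero ⟨m, MvPolynomial.mem_support_iff.2 hm⟩
  exact hm ((map_eq_zero (algebraMap L ℂ)).1 h1)

/-- **Lindemann-Weierstrass theorem** over the rationals. -/
theorem algebraicIndependent_exp {ι : Type*} (u : ι → ℂ) (hu : ∀ i, IsAlgebraic ℚ (u i))
    (hlin : LinearIndependent ℚ u) : AlgebraicIndependent ℚ (fun i => Complex.exp (u i)) :=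
  algebraicIndependent_exp' ℚ (fun x => isAlgebraic_algebraMap x) u hu hlin

/-- Hermite-Lindemann. -/
theorem transcendental_exp {x : ℂ} (hx : IsAlgebraic ℚ x) (hx0 : x ≠ 0) :
    Transcendental ℚ (Complex.exp x) := by
  have h := algebraicIndependent_exp (fun _ : Unit => x) (fun _ => hx)
    (LinearIndependent.of_subsingleton () hx0)
  exact h.transcendental ()

/-- `2 π i` is transcendental. -/
theorem transcendental_two_pi_I : Transcendental ℚ (2 * Real.pi * Complex.I : ℂ) := by
  intro h
  have h1 := transcendental_exp h (by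
    simp [Real.pi_ne_zero])
  rw [Complex.exp_two_pi_mul_I] at h1
  exact h1 (isAlgebraic_one)

/-- `π` is transcendental. -/
theorem transcendental_pi : Transcendental ℚ (Real.pi : ℂ) := by
  intro h
  apply transcendental_two_pi_I
  have hI : IsAlgebraic ℚ Complex.I := by
    refine ⟨Polynomial.X ^ 2 + 1, ?_, ?_⟩
    · intro h0
      have := congrArg (Polynomial.eval 0) h0
      simp at this
    · simp
  have h2 : IsAlgebraic ℚ (2 : ℂ) := isAlgebraic_natCast (R := ℚ) (A := ℂ) 2
  exact (h2.mul h).mul hI

theorem transcendental_pi_real : Transcendental ℚ Real.pi := by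
  intro h
  apply transcendental_pi
  exact h.algebraMap (A := ℂ)

end Pool.Agent.Work.LW
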